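import Pool.Agent.E8helper72.HR.Stm

/-!
# Project HR, piece HR4: three equal values
-/

set_option autoImplicit false

open MeasureTheory Set Real Filter Topology
open scoped ENNReal

namespace Pool.Agent.E8helper83.HR

open H72HR

lemma sp (c r : ℝ) : 0 < √(1 + c ^ 2 * r ^ 2) := Real.sqrt_pos.2 (by positivity)

lemma sq' (c r : ℝ) : √(1 + c ^ 2 * r ^ 2) ^ 2 = 1 + c ^ 2 * r ^ 2 := Real.sq_sqrt (by positivity)

/-- the tangent of `t ^ (-3/2)` -/
lemma tang {q q0 : ℝ} (hq : 0 < q) (h0 : 0 < q0) (hne : q ≠ q0) :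
    1 / q0 ^ 3 - 3 / 2 * (q ^ 2 - q0 ^ 2) / q0 ^ 5 < 1 / q ^ 3 := by
  have h1 : 1 / q ^ 3 - (1 / q0 ^ 3 - 3 / 2 * (q ^ 2 - q0 ^ 2) / q0 ^ 5) =
      (q - q0) ^ 2 * (3 * q ^ 3 + 6 * q ^ 2 * q0 + 4 * q * q0 ^ 2 + 2 * q0 ^ 3) /
        (2 * q ^ 3 * q0 ^ 5) := by
    field_simp
    ring
  have h2 : 0 < (q - q0) ^ 2 * (3 * q ^ 3 + 6 * q ^ 2 * q0 + 4 * q * q0 ^ 2 + 2 * q0 ^ 3) /
      (2 * q ^ 3 * q0 ^ 5) := by
    have := sub_ne_zero.2 hne
    positivity
  linarith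

/-- the quotient of the roots -/
noncomputable def qq (c₂ c r : ℝ) : ℝ := √(1 + c ^ 2 * r ^ 2) / √(1 + c₂ ^ 2 * r ^ 2)

lemma qq_pos (c₂ c r : ℝ) : 0 < qq c₂ c r := div_pos (sp _ _) (sp _ _)

lemma qq_sq {c₂ : ℝ} (h : c₂ ≠ 0) (c r : ℝ) :
    qq c₂ c r ^ 2 = c ^ 2 / c₂ ^ 2 + (1 - c ^ 2 / c₂ ^ 2) * (1 / (1 + c₂ ^ 2 * r ^ 2)) := by
  unfold qq
  rw [div_pow, sq', sq']
  have : (1 + c₂ ^ 2 * r ^ 2) ≠ 0 := by positivity
  field_simp
  ring

lemma kk_eq (c₂ c r : ℝ) : kk c r = r / (3 * √(1 + c₂ ^ 2 * r ^ 2) ^ 3) *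
    (c ^ 2 * (1 / qq c₂ c r ^ 3)) := by
  unfold kk qq
  have h1 := (sp c r).ne'
  have h2 := (sp c₂ r).ne'
  field_simp

lemma qq_self (c₂ r : ℝ) : qq c₂ c₂ r = 1 := div_self (sp _ _).ne'

lemma Y_lt {c₂ r s : ℝ} (h : 0 < c₂) (hr : 0 < r) (hrs : r < s) :
    1 / (1 + c₂ ^ 2 * s ^ 2) < 1 / (1 + c₂ ^ 2 * r ^ 2) := by
  apply one_div_lt_one_div_of_lt (by positivity)
  have h1 : r ^ 2 < s ^ 2 := by nlinarith
  have h2 : 0 < c₂ ^ 2 := by positivity
  nlinarith

/-- the kernel of three terms -/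
noncomputable def k3 (c₁ c₂ c₃ l u r : ℝ) : ℝ := kk c₂ r - l * kk c₁ r - u * kk c₃ r

/-- the sign of the kernel -/
noncomputable def h3 (c₁ c₂ c₃ l u r : ℝ) : ℝ :=
  c₂ ^ 2 - l * c₁ ^ 2 * (1 / qq c₂ c₁ r ^ 3) - u * c₃ ^ 2 * (1 / qq c₂ c₃ r ^ 3)

lemma k3_eq (c₁ c₂ c₃ l u r : ℝ) : k3 c₁ c₂ c₃ l u r =
    r / (3 * √(1 + c₂ ^ 2 * r ^ 2) ^ 3) * h3 c₁ c₂ c₃ l u r := by
  unfold k3 h3
  rw [kk_eq c₂ c₂ r, kk_eq c₂ c₁ r, kk_eq c₂ c₃ r, qq_self]
  ring

lemma fac_pos {c₂ r : ℝ} (hr : 0 < r) : 0 < r / (3 * √(1 + c₂ ^ 2 * r ^ 2) ^ 3) := by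
  have := sp c₂ r
  positivity

/-- the kernel is strictly quasi-concave -/
lemma k3_qc {c₁ c₂ c₃ l u : ℝ} (h1 : 0 < c₁) (h12 : c₁ < c₂) (h23 : c₂ < c₃) (hl : 0 < l)
    (hu : 0 < u) {r₁ r₂ r₃ : ℝ} (hr : 0 < r₁) (hr12 : r₁ < r₂) (hr23 : r₂ < r₃)
    (k1 : 0 ≤ k3 c₁ c₂ c₃ l u r₁) (k3' : 0 ≤ k3 c₁ c₂ c₃ l u r₃) : 0 < k3 c₁ c₂ c₃ l u r₂ := by
  have h2 : 0 < c₂ := h1.trans h12
  have hc3 : 0 < c₃ := h2.trans h23
  have hr2 : 0 < r₂ := hr.trans hr12
  have hr3 : 0 < r₃ := hr2.trans hr23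
  by_contra hneg
  rw [not_lt] at hneg
  rw [k3_eq] at k1 k3' hneg
  have a1 : 0 ≤ h3 c₁ c₂ c₃ l u r₁ := nonneg_of_mul_nonneg_right k1 (fac_pos hr)
  have a3 : 0 ≤ h3 c₁ c₂ c₃ l u r₃ := nonneg_of_mul_nonneg_right k3' (fac_pos hr3)
  have a2 : h3 c₁ c₂ c₃ l u r₂ ≤ 0 := by
    by_contra h
    rw [not_le] at h
    exact absurd (mul_pos (fac_pos (c₂ := c₂) hr2) h) (not_lt.2 hneg)
  set Y : ℝ → ℝ := fun r => 1 / (1 + c₂ ^ 2 * r ^ 2) with hY
  have y12 : Y r₂ < Y r₁ := Y_lt h2 hr hr12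
  have y23 : Y r₃ < Y r₂ := Y_lt h2 hr2 hr23
  have g1 : 0 < 1 - c₁ ^ 2 / c₂ ^ 2 := by
    rw [sub_pos, div_lt_one (by positivity)]
    nlinarith
  have g3 : 1 - c₃ ^ 2 / c₂ ^ 2 < 0 := by
    rw [sub_neg, one_lt_div (by positivity)]
    nlinarith
  set D : ℝ := l * c₁ ^ 2 * ((1 - c₁ ^ 2 / c₂ ^ 2) / qq c₂ c₁ r₂ ^ 5) +
    u * c₃ ^ 2 * ((1 - c₃ ^ 2 / c₂ ^ 2) / qq c₂ c₃ r₂ ^ 5) with hD
  have key : ∀ r : ℝ, 0 < r → Y r ≠ Y r₂ →
      h3 c₁ c₂ c₃ l u r < h3 c₁ c₂ c₃ l u r₂ + 3 / 2 * D * (Y r - Y r₂) := by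
    intro r hr0 hne
    have t : ∀ c : ℝ, 1 - c ^ 2 / c₂ ^ 2 ≠ 0 →
        1 / qq c₂ c r₂ ^ 3 - 3 / 2 * ((1 - c ^ 2 / c₂ ^ 2) / qq c₂ c r₂ ^ 5) * (Y r - Y r₂) <
          1 / qq c₂ c r ^ 3 := by
      intro c hc
      have e1 := qq_sq h2.ne' c r
      have e2 := qq_sq h2.ne' c r₂
      have hneq : qq c₂ c r ≠ qq c₂ c r₂ := by
        intro h
        rw [h, e2] at e1
        apply hne
        have h4 : (1 - c ^ 2 / c₂ ^ 2) * (Y r - Y r₂) = 0 := by
          simp only [hY]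
          linarith
        rcases mul_eq_zero.1 h4 with h4 | h4
        · exact absurd h4 hc
        · linarith
      have h5 := tang (qq_pos c₂ c r) (qq_pos c₂ c r₂) hneq
      have h6 : 3 / 2 * (qq c₂ c r ^ 2 - qq c₂ c r₂ ^ 2) / qq c₂ c r₂ ^ 5 =
          3 / 2 * ((1 - c ^ 2 / c₂ ^ 2) / qq c₂ c r₂ ^ 5) * (Y r - Y r₂) := by
        have h7 : qq c₂ c r ^ 2 - qq c₂ c r₂ ^ 2 = (1 - c ^ 2 / c₂ ^ 2) * (Y r - Y r₂) := by
          rw [e1, e2]
          simp only [hY]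
          ring
        rw [h7]
        ring
      rw [h6] at h5
      exact h5
    have t1 := mul_lt_mul_of_pos_left (t c₁ g1.ne') (show 0 < l * c₁ ^ 2 by positivity)
    have t3 := mul_lt_mul_of_pos_left (t c₃ g3.ne) (show 0 < u * c₃ ^ 2 by positivity)
    unfold h3
    rw [hD]
    nlinarith [t1, t3]
  have b1 := key r₁ hr y12.ne'
  have b3 := key r₃ hr3 y23.ne
  have d1 : 0 < D := by
    have h4 : 0 < D * (Y r₁ - Y r₂) := by nlinarith
    exact (pos_iff_pos_of_mul_pos h4).2 (by linarith)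
  have d3 : D * (Y r₃ - Y r₂) < 0 := mul_neg_of_pos_of_neg d1 (by linarith)
  nlinarith

/-- two kernels -/
lemma k2_cr {c₁ c₂ : ℝ} (h1 : 0 < c₁) (h12 : c₁ < c₂) {r₁ r₂ : ℝ} (hr : 0 < r₁) (hr12 : r₁ < r₂)
    (h : 0 ≤ kk c₁ r₁ - kk c₂ r₁) : 0 < kk c₁ r₂ - kk c₂ r₂ := by
  have h2 : 0 < c₂ := h1.trans h12
  have hr2 : 0 < r₂ := hr.trans hr12
  have e : ∀ r : ℝ, kk c₁ r - kk c₂ r = r / (3 * √(1 + c₂ ^ 2 * r ^ 2) ^ 3) *
      (c₁ ^ 2 * (1 / qq c₂ c₁ r ^ 3) - c₂ ^ 2) := by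
    intro r
    rw [kk_eq c₂ c₁ r, kk_eq c₂ c₂ r, qq_self]
    ring
  rw [e] at h ⊢
  have a1 : 0 ≤ c₁ ^ 2 * (1 / qq c₂ c₁ r₁ ^ 3) - c₂ ^ 2 := nonneg_of_mul_nonneg_right h (fac_pos hr)
  refine mul_pos (fac_pos hr2) ?_
  have g1 : 0 < 1 - c₁ ^ 2 / c₂ ^ 2 := by
    rw [sub_pos, div_lt_one (by positivity)]
    nlinarith
  have h5 : qq c₂ c₁ r₂ ^ 2 < qq c₂ c₁ r₁ ^ 2 := by
    rw [qq_sq h2.ne', qq_sq h2.ne']
    have := mul_lt_mul_of_pos_left (Y_lt h2 hr hr12) g1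
    linarith
  have h6 : qq c₂ c₁ r₂ < qq c₂ c₁ r₁ := lt_of_pow_lt_pow_left₀ 2 (qq_pos _ _ _).le h5
  have h7 : 1 / qq c₂ c₁ r₁ ^ 3 < 1 / qq c₂ c₁ r₂ ^ 3 :=
    one_div_lt_one_div_of_lt (pow_pos (qq_pos _ _ _) 3)
      (pow_lt_pow_left₀ h6 (qq_pos _ _ _).le (by norm_num))
  have h8 : 0 < c₁ ^ 2 := by positivity
  nlinarith

/-! ### integrals of the kernels -/

/-- the primitive -/
noncomputable def ph (c r : ℝ) : ℝ := 1 / (3 * √(1 + c ^ 2 * r ^ 2))

lemma kk_nonneg {c r : ℝ} (hr : 0 ≤ r) : 0 ≤ kk c r := by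
  unfold kk
  have := sp c r
  positivity

lemma ph_deriv (c r : ℝ) : HasDerivAt (fun x => -ph c x) (kk c r) r := by
  have h0 := (sp c r).ne'
  have h1 : HasDerivAt (fun x : ℝ => 1 + c ^ 2 * x ^ 2) (c ^ 2 * (2 * r)) r := by
    have := ((hasDerivAt_pow 2 r).const_mul (c ^ 2)).const_add 1
    simpa using this
  have h2 := h1.sqrt (by positivity : (1 + c ^ 2 * r ^ 2) ≠ 0)
  have h3 := (((h2.const_mul 3).fun_inv (by positivity : 3 * √(1 + c ^ 2 * r ^ 2) ≠ 0)).neg)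
  have e1 : (fun x => -ph c x) = -fun x => (3 * √(1 + c ^ 2 * x ^ 2))⁻¹ := by
    funext x
    simp [ph]
  rw [e1]
  refine h3.congr_deriv ?_
  unfold kk
  field_simp

lemma ph_lim {c : ℝ} (hc : 0 < c) : Tendsto (fun x => -ph c x) atTop (𝓝 0) := by
  have h1 : Tendsto (fun x : ℝ => √(1 + c ^ 2 * x ^ 2)) atTop atTop := by
    refine tendsto_atTop_mono' atTop ?_ (tendsto_id.const_mul_atTop hc)
    filter_upwards [eventually_ge_atTop 0] with x hx
    have h2 : c * x = √((c * x) ^ 2) := (Real.sqrt_sq (by positivity)).symm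
    simp only [id]
    rw [h2]
    apply Real.sqrt_le_sqrt
    nlinarith
  have h3 : Tendsto (fun x : ℝ => ph c x) atTop (𝓝 0) := by
    have h4 := (h1.const_mul_atTop (show (0 : ℝ) < 3 by norm_num)).inv_tendsto_atTop
    refine h4.congr fun x => ?_
    simp [ph]
  simpa using h3.neg

lemma kk_int {c a : ℝ} (hc : 0 < c) (ha : 0 ≤ a) : IntegrableOn (kk c) (Ioi a) :=
  integrableOn_Ioi_deriv_of_nonneg' (fun x _ => ph_deriv c x)
    (fun _ hx => kk_nonneg (ha.trans (le_of_lt hx))) (ph_lim hc)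

lemma kk_val {c a : ℝ} (hc : 0 < c) (ha : 0 ≤ a) : ∫ r in Ioi a, kk c r = ph c a := by
  rw [integral_Ioi_of_hasDerivAt_of_nonneg' (fun x _ => ph_deriv c x)
    (fun _ hx => kk_nonneg (ha.trans (le_of_lt hx))) (ph_lim hc)]
  ring

lemma ph_lt {c c' m : ℝ} (hc : 0 < c) (hcc : c < c') (hm : 0 < m) : ph c' m < ph c m := by
  unfold ph
  apply one_div_lt_one_div_of_lt (by have := sp c m; positivity)
  have : √(1 + c ^ 2 * m ^ 2) < √(1 + c' ^ 2 * m ^ 2) := by
    apply Real.sqrt_lt_sqrt (by positivity)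
    have h1 : c ^ 2 < c' ^ 2 := by nlinarith
    have h2 : 0 < m ^ 2 := by positivity
    nlinarith
  linarith

lemma ph_zero (c : ℝ) : ph c 0 = 1 / 3 := by
  unfold ph
  norm_num

/-! ### the crossing lemma -/

lemma int_pos {J : Set ℝ} (hJ : MeasurableSet J) (hJ0 : volume J ≠ 0) {k : ℝ → ℝ}
    (hk : IntegrableOn k J) (h : ∀ r ∈ J, 0 < k r) : 0 < ∫ r in J, k r := by
  rw [setIntegral_pos_iff_support_of_nonneg_ae _ hk]
  · have : Function.support k ∩ J = J := by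
      apply inter_eq_right.2
      intro r hr
      exact (h r hr).ne'
    rw [this]
    exact pos_iff_ne_zero.2 hJ0
  · exact (ae_restrict_iff' hJ).2 (Eventually.of_forall fun r hr => (h r hr).le)

/-- a nonnegative product with zero integral -/
lemma const_of {J : Set ℝ} (hJ : MeasurableSet J) {f k : ℝ → ℝ} {p C : ℝ}
    (hk : IntegrableOn k J) (hfk : IntegrableOn (fun r => f r * k r) J)
    (h0 : ∫ r in J, k r = 0) (hpos : ∀ r ∈ J, 0 ≤ (f r - C) * k r)
    (hne : ∀ r ∈ J, r ≠ p → k r ≠ 0) (hle : ∫ r in J, f r * k r ≤ 0) :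
    ∀ᵐ r, r ∈ J → f r = C := by
  have h1 : IntegrableOn (fun r => (f r - C) * k r) J := by
    have : (fun r => (f r - C) * k r) = fun r => f r * k r - C * k r := by
      funext r
      ring
    rw [this]
    exact hfk.sub (hk.const_mul C)
  have h2 : ∫ r in J, (f r - C) * k r ≤ 0 := by
    have : (fun r => (f r - C) * k r) = fun r => f r * k r - C * k r := by
      funext r
      ring
    rw [this, integral_sub hfk (hk.const_mul C), integral_const_mul, h0]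
    linarith
  have h3 : 0 ≤ᵐ[volume.restrict J] fun r => (f r - C) * k r :=
    (ae_restrict_iff' hJ).2 (Eventually.of_forall hpos)
  have h4 : ∫ r in J, (f r - C) * k r = 0 := le_antisymm h2 (integral_nonneg_of_ae h3)
  have h5 := (setIntegral_eq_zero_iff_of_nonneg_ae h3 h1).1 h4
  have h6 := (ae_restrict_iff' hJ).1 h5
  have h7 : ∀ᵐ r : ℝ, r ≠ p := by
    rw [ae_iff]
    simp
  filter_upwards [h6, h7] with r hr hp hrJ
  have h8 := hr hrJ
  simp only [Pi.zero_apply, mul_eq_zero] at h8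
  rcases h8 with h8 | h8
  · linarith
  · exact absurd h8 (hne r hrJ hp)

/-- increasing function, kernel which changes the sign from `-` to `+` -/
lemma cross_up {J : Set ℝ} (hJ : MeasurableSet J) (hJ0 : volume J ≠ 0) (hJc : J.OrdConnected)
    (hJb : BddBelow J) {f k : ℝ → ℝ} (hk : IntegrableOn k J)
    (hfk : IntegrableOn (fun r => f r * k r) J) (h0 : ∫ r in J, k r = 0)
    (hinf : sInf J ∉ J)
    (hcr : ∀ r ∈ J, ∀ s ∈ J, r < s → 0 ≤ k r → 0 < k s) (hf : MonotoneOn f J) :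
    (0 ≤ ∫ r in J, f r * k r) ∧ (∫ r in J, f r * k r ≤ 0 →
      ∃ p ∈ J, ∀ᵐ r, r ∈ J → f r = f p) := by
  classical
  set N := {r | r ∈ J ∧ 0 ≤ k r} with hN
  have hNne : N.Nonempty := by
    by_contra hcon
    rw [not_nonempty_iff_eq_empty] at hcon
    have h1 : ∀ r ∈ J, 0 < -k r := by
      intro r hr
      by_contra h
      have : r ∈ N := ⟨hr, by linarith⟩
      rw [hcon] at this
      exact this
    have h2 := int_pos hJ hJ0 hk.neg h1
    simp only [Pi.neg_apply, integral_neg, h0] at h2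
    linarith
  obtain ⟨x, hxJ, hx⟩ := hNne
  -- there is a point with negative value
  obtain ⟨y, hyJ, hy⟩ : ∃ y ∈ J, k y < 0 := by
    by_contra hcon
    push Not at hcon
    have h1 : ∀ r ∈ J, 0 < k r := by
      intro r hr
      obtain ⟨s, hs, hsr⟩ : ∃ s ∈ J, s < r := by
        by_contra h
        push Not at h
        apply hinf
        have : sInf J = r := le_antisymm (csInf_le hJb hr) (le_csInf ⟨r, hr⟩ h)
        rw [this]
        exact hr
      exact hcr s hs r hr hsr (hcon s hs)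
    have h2 := int_pos hJ hJ0 hk h1
    rw [h0] at h2
    exact lt_irrefl _ h2
  have hNb : BddBelow N := hJb.mono fun r hr => hr.1
  set p := sInf N with hp
  have hyN : ∀ r ∈ N, y < r := by
    intro r hr
    by_contra h
    rcases (not_lt.1 h).lt_or_eq with h | h
    · exact absurd (hcr r hr.1 y hyJ h hr.2) (not_lt.2 hy.le)
    · rw [← h] at hy
      exact absurd hr.2 (not_le.2 hy)
  have hxN : x ∈ N := ⟨hxJ, hx⟩
  have hpJ : p ∈ J := (hJc.out hyJ hxJ) (show p ∈ Icc y x from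
    ⟨le_csInf ⟨x, hxN⟩ fun r hr => (hyN r hr).le, csInf_le hNb hxN⟩)
  have hlow : ∀ r ∈ J, r < p → k r < 0 := by
    intro r hr hrp
    by_contra h
    exact absurd (csInf_le hNb (show r ∈ N from ⟨hr, not_lt.1 h⟩)) (not_le.2 hrp)
  have hup : ∀ r ∈ J, p < r → 0 < k r := by
    intro r hr hrp
    obtain ⟨s, hs, hsr⟩ := exists_lt_of_csInf_lt ⟨x, hxN⟩ hrp
    exact hcr s hs.1 r hr hsr hs.2
  have hpos : ∀ r ∈ J, 0 ≤ (f r - f p) * k r := by
    intro r hr
    rcases lt_trichotomy r p with h | h | h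
    · have := hf hr hpJ h.le
      exact mul_nonneg_of_nonpos_of_nonpos (by linarith) (hlow r hr h).le
    · rw [h, sub_self, zero_mul]
    · have := hf hpJ hr h.le
      exact mul_nonneg (by linarith) (hup r hr h).le
  constructor
  · have h1 : 0 ≤ ∫ r in J, (f r - f p) * k r := setIntegral_nonneg hJ hpos
    have h2 : ∫ r in J, (f r - f p) * k r = ∫ r in J, f r * k r := by
      have : (fun r => (f r - f p) * k r) = fun r => f r * k r - f p * k r := by
        funext r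
        ring
      rw [this, integral_sub hfk (hk.const_mul _), integral_const_mul, h0, mul_zero, sub_zero]
    rw [← h2]
    exact h1
  · intro hle
    refine ⟨p, hpJ, const_of (p := p) hJ hk hfk h0 hpos ?_ hle⟩
    intro r hr hrp
    rcases lt_or_gt_of_ne hrp with h | h
    · exact (hlow r hr h).ne
    · exact (hup r hr h).ne'

/-- decreasing function, kernel which changes the sign from `+` to `-` -/
lemma cross_dn {a : ℝ} {f k : ℝ → ℝ} (hk : IntegrableOn k (Ioi a))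
    (hfk : IntegrableOn (fun r => f r * k r) (Ioi a)) (h0 : ∫ r in Ioi a, k r = 0)
    (hcr : ∀ r, a < r → ∀ s, r < s → 0 ≤ k s → 0 < k r) (hf : AntitoneOn f (Ioi a)) :
    (0 ≤ ∫ r in Ioi a, f r * k r) ∧ (∫ r in Ioi a, f r * k r ≤ 0 →
      ∃ p ∈ Ioi a, ∀ᵐ r, r ∈ Ioi a → f r = f p) := by
  classical
  have hJ : MeasurableSet (Ioi a) := measurableSet_Ioi
  have hJ0 : volume (Ioi a) ≠ 0 := by
    rw [Real.volume_Ioi]
    exact ENNReal.top_ne_zero
  set N := {r | r ∈ Ioi a ∧ 0 ≤ k r} with hN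
  have hNne : N.Nonempty := by
    by_contra hcon
    rw [not_nonempty_iff_eq_empty] at hcon
    have h1 : ∀ r ∈ Ioi a, 0 < -k r := by
      intro r hr
      by_contra h
      have : r ∈ N := ⟨hr, by linarith⟩
      rw [hcon] at this
      exact this
    have h2 := int_pos hJ hJ0 hk.neg h1
    simp only [Pi.neg_apply, integral_neg, h0] at h2
    linarith
  obtain ⟨x, hxJ, hx⟩ := hNne
  obtain ⟨y, hyJ, hy⟩ : ∃ y ∈ Ioi a, k y < 0 := by
    by_contra hcon
    push Not at hcon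
    have h1 : ∀ r ∈ Ioi a, 0 < k r := by
      intro r hr
      exact hcr r hr (r + 1) (by linarith) (hcon (r + 1) (lt_trans hr (by linarith : r < r + 1)))
    have h2 := int_pos hJ hJ0 hk h1
    rw [h0] at h2
    exact lt_irrefl _ h2
  have hyN : ∀ r ∈ N, r < y := by
    intro r hr
    by_contra h
    rcases (not_lt.1 h).lt_or_eq with h | h
    · exact absurd (hcr y hyJ r h hr.2) (not_lt.2 hy.le)
    · rw [h] at hy
      exact absurd hr.2 (not_le.2 hy)
  have hNb : BddAbove N := ⟨y, fun r hr => (hyN r hr).le⟩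
  set p := sSup N with hp
  have hxN : x ∈ N := ⟨hxJ, hx⟩
  have hpJ : p ∈ Ioi a := lt_of_lt_of_le hxJ (le_csSup hNb hxN)
  have hup : ∀ r ∈ Ioi a, p < r → k r < 0 := by
    intro r hr hrp
    by_contra h
    exact absurd (le_csSup hNb (show r ∈ N from ⟨hr, not_lt.1 h⟩)) (not_le.2 hrp)
  have hlow : ∀ r ∈ Ioi a, r < p → 0 < k r := by
    intro r hr hrp
    obtain ⟨s, hs, hsr⟩ := exists_lt_of_lt_csSup ⟨x, hxN⟩ hrp
    exact hcr r hr s hsr hs.2
  have hpos : ∀ r ∈ Ioi a, 0 ≤ (f r - f p) * k r := by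
    intro r hr
    rcases lt_trichotomy r p with h | h | h
    · have := hf hr hpJ h.le
      exact mul_nonneg (by linarith) (hlow r hr h).le
    · rw [h, sub_self, zero_mul]
    · have := hf hpJ hr h.le
      exact mul_nonneg_of_nonpos_of_nonpos (by linarith) (hup r hr h).le
  constructor
  · have h1 : 0 ≤ ∫ r in Ioi a, (f r - f p) * k r := setIntegral_nonneg hJ hpos
    have h2 : ∫ r in Ioi a, (f r - f p) * k r = ∫ r in Ioi a, f r * k r := by
      have : (fun r => (f r - f p) * k r) = fun r => f r * k r - f p * k r := by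
        funext r
        ring
      rw [this, integral_sub hfk (hk.const_mul _), integral_const_mul, h0, mul_zero, sub_zero]
    rw [← h2]
    exact h1
  · intro hle
    refine ⟨p, hpJ, const_of (p := p) hJ hk hfk h0 hpos ?_ hle⟩
    intro r hr hrp
    rcases lt_or_gt_of_ne hrp with h | h
    · exact (hlow r hr h).ne'
    · exact (hup r hr h).ne

/-- the mode of a quasi-concave function -/
lemma mode {f : ℝ → ℝ} {ρ : ℝ} (hρ : 0 < ρ) (hf0 : ∀ r, 0 ≤ f r) (hz : ∀ r < ρ, f r = 0)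
    (hq : ∀ r₁ r₂ r₃ : ℝ, 0 < r₁ → r₁ < r₂ → r₂ < r₃ → min (f r₁) (f r₃) ≤ f r₂) :
    MonotoneOn f (Ioi 0) ∨ ∃ m, 0 < m ∧ MonotoneOn f (Ioo 0 m) ∧ AntitoneOn f (Ioi m) := by
  classical
  by_cases hmon : MonotoneOn f (Ioi 0)
  · exact Or.inl hmon
  right
  set U := {r : ℝ | 0 < r ∧ ∃ s, 0 < s ∧ s < r ∧ f r < f s} with hU
  have hUup : ∀ r ∈ U, ∀ r', r < r' → r' ∈ U ∧ f r' ≤ f r := by
    rintro r ⟨hr, s, hs, hsr, hfs⟩ r' hrr'
    have h1 := hq s r r' hs hsr hrr'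
    have h2 : f r' ≤ f r := by
      rcases min_le_iff.1 h1 with h | h
      · exact absurd hfs (not_lt.2 h)
      · exact h
    exact ⟨⟨hr.trans hrr', s, hs, hsr.trans hrr', lt_of_le_of_lt h2 hfs⟩, h2⟩
  have hUne : U.Nonempty := by
    by_contra hcon
    rw [not_nonempty_iff_eq_empty] at hcon
    apply hmon
    intro s hs r hr hsr
    rcases hsr.lt_or_eq with h | h
    · by_contra h1
      have : r ∈ U := ⟨hr, s, hs, h, not_le.1 h1⟩
      rw [hcon] at this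
      exact this
    · rw [h]
  have hUb : ∀ r ∈ U, ρ ≤ r := by
    rintro r ⟨hr, s, hs, hsr, hfs⟩
    by_contra h
    rw [not_le] at h
    rw [hz s (hsr.trans h)] at hfs
    exact absurd (hf0 r) (not_le.2 hfs)
  have hbb : BddBelow U := ⟨ρ, hUb⟩
  refine ⟨sInf U, lt_of_lt_of_le hρ (le_csInf hUne hUb), ?_, ?_⟩
  · intro s hs r hr hsr
    rcases hsr.lt_or_eq with h | h
    · by_contra h1
      have h2 : r ∈ U := ⟨hr.1, s, hs.1, h, not_le.1 h1⟩
      exact absurd (csInf_le hbb h2) (not_le.2 hr.2)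
    · rw [h]
  · intro s hs r hr hsr
    rcases hsr.lt_or_eq with h | h
    · obtain ⟨t, ht, hts⟩ := exists_lt_of_csInf_lt hUne hs
      exact (hUup s (hUup t ht s hts).1 r h).2
    · rw [h]

/-- HR4 -/
theorem t_TV : S_TV := by
  intro w hw hM hρ hq c₁ c₂ c₃ h1 h12 h23 e12 e23
  obtain ⟨M, hM⟩ := hM
  obtain ⟨ρ, hρ, hz⟩ := hρ
  have h2 : 0 < c₂ := h1.trans h12
  have h3 : 0 < c₃ := h2.trans h23
  set f : ℝ → ℝ := fun r => (w r).toReal with hf
  have hwf : ∀ r, w r = ENNReal.ofReal (f r) := fun r =>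
    (ENNReal.ofReal_toReal (ne_top_of_le_ne_top ENNReal.ofReal_ne_top (hM r))).symm
  have hf0 : ∀ r, 0 ≤ f r := fun r => ENNReal.toReal_nonneg
  have hfm : Measurable f := hw.ennreal_toReal
  have hfM : ∀ r, ‖f r‖ ≤ max M 0 := by
    intro r
    rw [Real.norm_of_nonneg (hf0 r)]
    have := ENNReal.toReal_mono ENNReal.ofReal_ne_top (hM r)
    rwa [ENNReal.toReal_ofReal'] at this
  have hfz : ∀ r < ρ, f r = 0 := fun r hr => by simp only [hf, hz r hr, ENNReal.toReal_zero]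
  have hfq : ∀ r₁ r₂ r₃ : ℝ, 0 < r₁ → r₁ < r₂ → r₂ < r₃ → min (f r₁) (f r₃) ≤ f r₂ := by
    intro r₁ r₂ r₃ g1 g2 g3
    have := hq r₁ r₂ r₃ g1 g2 g3
    rcases min_le_iff.1 this with h | h
    · exact min_le_iff.2 (Or.inl (ENNReal.toReal_mono
        (ne_top_of_le_ne_top ENNReal.ofReal_ne_top (hM r₂)) h))
    · exact min_le_iff.2 (Or.inr (ENNReal.toReal_mono
        (ne_top_of_le_ne_top ENNReal.ofReal_ne_top (hM r₂)) h))
  -- integrability
  have hint : ∀ {J : Set ℝ} {k : ℝ → ℝ}, IntegrableOn k J → IntegrableOn (fun r => f r * k r) J := by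
    intro J k hk
    exact Integrable.bdd_mul hk hfm.aestronglyMeasurable (Eventually.of_forall hfM)
  -- the values
  have hA : ∀ c, 0 < c → (∫⁻ r in Ioi (0 : ℝ), w r * ENNReal.ofReal (kk c r)) =
      ENNReal.ofReal (∫ r in Ioi (0 : ℝ), f r * kk c r) := by
    intro c hc
    rw [ofReal_integral_eq_lintegral_ofReal (hint (kk_int hc le_rfl))]
    · refine lintegral_congr fun r => ?_
      rw [hwf, ← ENNReal.ofReal_mul (hf0 r)]
    · exact (ae_restrict_iff' measurableSet_Ioi).2 (Eventually.of_forall fun r hr =>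
        mul_nonneg (hf0 r) (kk_nonneg (le_of_lt hr)))
  have hB0 : ∀ c, 0 ≤ ∫ r in Ioi (0 : ℝ), f r * kk c r := fun c =>
    setIntegral_nonneg measurableSet_Ioi fun r hr => mul_nonneg (hf0 r) (kk_nonneg (le_of_lt hr))
  rw [hA _ h1, hA _ h2, ENNReal.ofReal_eq_ofReal_iff (hB0 _) (hB0 _)] at e12
  rw [hA _ h2, hA _ h3, ENNReal.ofReal_eq_ofReal_iff (hB0 _) (hB0 _)] at e23
  rw [hA _ h1]
  rw [ENNReal.ofReal_eq_zero]
  have i1 := kk_int h1 le_rfl
  have i2 := kk_int h2 le_rfl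
  have i3 := kk_int h3 le_rfl
  rcases mode hρ hf0 hfz hfq with hmon | ⟨m, hm, hmon, hanti⟩
  · -- monotone
    have hk : IntegrableOn (fun r => kk c₁ r - kk c₂ r) (Ioi 0) := i1.sub i2
    have h0 : ∫ r in Ioi (0 : ℝ), (kk c₁ r - kk c₂ r) = 0 := by
      rw [integral_sub i1 i2, kk_val h1 le_rfl, kk_val h2 le_rfl, ph_zero, ph_zero, sub_self]
    obtain ⟨-, g2⟩ := cross_up (J := Ioi 0) (f := f) measurableSet_Ioi
      (by rw [Real.volume_Ioi]; exact ENNReal.top_ne_zero) ordConnected_Ioi bddBelow_Ioi hk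
      (hint hk) h0 (by rw [csInf_Ioi]; exact fun h => lt_irrefl (0 : ℝ) h)
      (fun r hr s _ hrs hkr => k2_cr h1 h12 hr hrs hkr) hmon
    have h5 : ∫ r in Ioi (0 : ℝ), f r * (kk c₁ r - kk c₂ r) = 0 := by
      have : (fun r => f r * (kk c₁ r - kk c₂ r)) = fun r => f r * kk c₁ r - f r * kk c₂ r := by
        funext r
        ring
      rw [this, integral_sub (hint i1) (hint i2), e12, sub_self]
    obtain ⟨p, hp, hae⟩ := g2 h5.le
    have hfp : f p = 0 := by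
      by_contra hne
      have h6 : volume (Ioo (0 : ℝ) ρ) = 0 := by
        refine measure_mono_null (fun r hr => ?_) hae
        intro h7
        exact hne (by rw [← h7 hr.1, hfz r hr.2])
      rw [Real.volume_Ioo, sub_zero, ENNReal.ofReal_eq_zero] at h6
      linarith
    have h7 : ∫ r in Ioi (0 : ℝ), f r * kk c₁ r = ∫ r in Ioi (0 : ℝ), (0 : ℝ) := by
      refine setIntegral_congr_ae measurableSet_Ioi ?_
      filter_upwards [hae] with r hr hr0
      rw [hr hr0, hfp, zero_mul]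
    rw [h7, integral_zero]
  · -- the mode is `m`
    have p12 := ph_lt h1 h12 hm
    have p23 := ph_lt h2 h23 hm
    set l : ℝ := (ph c₂ m - ph c₃ m) / (ph c₁ m - ph c₃ m) with hl
    set u : ℝ := (ph c₁ m - ph c₂ m) / (ph c₁ m - ph c₃ m) with hu
    have hd : 0 < ph c₁ m - ph c₃ m := by linarith
    have hl0 : 0 < l := div_pos (by linarith) hd
    have hu0 : 0 < u := div_pos (by linarith) hd
    have hlu : l + u = 1 := by
      rw [hl, hu, ← add_div, div_eq_one_iff_eq hd.ne']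
      ring
    have hlu2 : l * ph c₁ m + u * ph c₃ m = ph c₂ m := by
      rw [hl, hu]
      field_simp
      ring
    set k : ℝ → ℝ := k3 c₁ c₂ c₃ l u with hkd
    have hkint : ∀ a, 0 ≤ a → IntegrableOn k (Ioi a) := fun a ha =>
      ((kk_int h2 ha).sub ((kk_int h1 ha).const_mul l)).sub ((kk_int h3 ha).const_mul u)
    have hkval : ∀ a, 0 ≤ a → ∫ r in Ioi a, k r = ph c₂ a - l * ph c₁ a - u * ph c₃ a := by
      intro a ha
      have j1 := (kk_int h1 ha).const_mul l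
      have j3 := (kk_int h3 ha).const_mul u
      have j2 : Integrable (fun r => kk c₂ r - l * kk c₁ r) (volume.restrict (Ioi a)) :=
        (kk_int h2 ha).sub j1
      have : ∫ r in Ioi a, k r = ∫ r in Ioi a, ((kk c₂ r - l * kk c₁ r) - u * kk c₃ r) := rfl
      rw [this, integral_sub j2 j3, integral_sub (kk_int h2 ha) j1,
        integral_const_mul, integral_const_mul, kk_val h1 ha, kk_val h2 ha, kk_val h3 ha]
    have hsplit : ∀ g : ℝ → ℝ, IntegrableOn g (Ioi 0) →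
        ∫ r in Ioi (0 : ℝ), g r = (∫ r in Ioo 0 m, g r) + ∫ r in Ioi m, g r := by
      intro g hg
      rw [← integral_Ioc_eq_integral_Ioo, ← Ioc_union_Ioi_eq_Ioi hm.le,
        setIntegral_union (Ioc_disjoint_Ioi le_rfl) measurableSet_Ioi
          (hg.mono_set Ioc_subset_Ioi_self) (hg.mono_set (Ioi_subset_Ioi hm.le))]
    have hkm : ∫ r in Ioi m, k r = 0 := by
      rw [hkval m hm.le]
      linarith
    have hk0 : ∫ r in Ioo 0 m, k r = 0 := by
      have h5 := hsplit k (hkint 0 le_rfl)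
      rw [hkval 0 le_rfl, hkm, ph_zero, ph_zero, ph_zero] at h5
      have : (1 : ℝ) / 3 - l * (1 / 3) - u * (1 / 3) = (1 - (l + u)) / 3 := by ring
      rw [this, hlu] at h5
      linarith
    have hIoo : IntegrableOn k (Ioo 0 m) := (hkint 0 le_rfl).mono_set Ioo_subset_Ioi_self
    have hv0 : volume (Ioo 0 m) ≠ 0 := by
      rw [Real.volume_Ioo, sub_zero, Ne, ENNReal.ofReal_eq_zero]
      linarith
    -- points with nonnegative values on both sides
    obtain ⟨x, hx, hxk⟩ : ∃ x ∈ Ioo 0 m, 0 ≤ k x := by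
      by_contra hcon
      push Not at hcon
      have h6 := int_pos measurableSet_Ioo hv0 hIoo.neg (fun r hr => by
        have := hcon r hr
        simp only [Pi.neg_apply]
        linarith)
      simp only [Pi.neg_apply, integral_neg, hk0] at h6
      linarith
    obtain ⟨y, hy, hyk⟩ : ∃ y ∈ Ioi m, 0 ≤ k y := by
      by_contra hcon
      push Not at hcon
      have h6 := int_pos measurableSet_Ioi
        (by rw [Real.volume_Ioi]; exact ENNReal.top_ne_zero) (hkint m hm.le).neg (fun r hr => by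
        have := hcon r hr
        simp only [Pi.neg_apply]
        linarith)
      simp only [Pi.neg_apply, integral_neg, hkm] at h6
      linarith
    obtain ⟨u1, u2⟩ := cross_up (J := Ioo 0 m) (f := f) measurableSet_Ioo hv0 ordConnected_Ioo
      bddBelow_Ioo hIoo (hint hIoo) hk0 (by rw [csInf_Ioo hm]; exact fun h => lt_irrefl (0 : ℝ) h.1)
      (fun r hr s hs hrs hkr => k3_qc h1 h12 h23 hl0 hu0 hr.1 hrs (hs.2.trans hy) hkr hyk) hmon
    obtain ⟨v1, v2⟩ := cross_dn (a := m) (f := f) (hkint m hm.le) (hint (hkint m hm.le)) hkm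
      (fun r hr s hrs hks => k3_qc h1 h12 h23 hl0 hu0 hx.1 (hx.2.trans hr) hrs hxk hks) hanti
    have htot : ∫ r in Ioi (0 : ℝ), f r * k r = 0 := by
      have j1 := (hint i1).const_mul l
      have j3 := (hint i3).const_mul u
      have e : (fun r => f r * k r) =
          fun r => (f r * kk c₂ r - l * (f r * kk c₁ r)) - u * (f r * kk c₃ r) := by
        funext r
        simp only [hkd, k3]
        ring
      have j2 : Integrable (fun r => f r * kk c₂ r - l * (f r * kk c₁ r))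
          (volume.restrict (Ioi 0)) := (hint i2).sub j1
      rw [e, integral_sub j2 j3, integral_sub (hint i2) j1, integral_const_mul,
        integral_const_mul, e12, ← e23]
      have : (1 : ℝ) - l - u = 0 := by linarith
      linear_combination (∫ r in Ioi (0 : ℝ), f r * kk c₂ r) * this
    rw [hsplit _ (hint (hkint 0 le_rfl))] at htot
    obtain ⟨p, hp, hae1⟩ := u2 (by linarith)
    obtain ⟨p', hp', hae2⟩ := v2 (by linarith)
    have hfp : f p = 0 := by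
      by_contra hne
      have h6 : volume (Ioo (0 : ℝ) (min ρ m)) = 0 := by
        refine measure_mono_null (fun r hr => ?_) hae1
        intro h7
        exact hne (by rw [← h7 ⟨hr.1, lt_of_lt_of_le hr.2 (min_le_right _ _)⟩,
          hfz r (lt_of_lt_of_le hr.2 (min_le_left _ _))])
      rw [Real.volume_Ioo, sub_zero, ENNReal.ofReal_eq_zero] at h6
      exact absurd (lt_min hρ hm) (not_lt.2 h6)
    have hB : ∀ c, 0 < c → ∫ r in Ioi (0 : ℝ), f r * kk c r = f p' * ph c m := by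
      intro c hc
      rw [hsplit _ (hint (kk_int hc le_rfl))]
      have h6 : ∫ r in Ioo 0 m, f r * kk c r = ∫ r in Ioo 0 m, (0 : ℝ) := by
        refine setIntegral_congr_ae measurableSet_Ioo ?_
        filter_upwards [hae1] with r hr hr0
        rw [hr hr0, hfp, zero_mul]
      have h7 : ∫ r in Ioi m, f r * kk c r = ∫ r in Ioi m, f p' * kk c r := by
        refine setIntegral_congr_ae measurableSet_Ioi ?_
        filter_upwards [hae2] with r hr hr0
        rw [hr hr0]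
      rw [h6, h7, integral_zero, zero_add, integral_const_mul, kk_val hc hm.le]
    rw [hB c₁ h1, hB c₂ h2] at e12
    have hC : f p' = 0 := by
      have h8 : f p' * (ph c₁ m - ph c₂ m) = 0 := by linarith
      rcases mul_eq_zero.1 h8 with h8 | h8
      · exact h8
      · linarith
    rw [hB c₁ h1, hC, zero_mul]

end Pool.Agent.E8helper83.HR
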